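import Pool.Agent.H624.LD.Stm
import Pool.Graph.R_pool_sql_team_seeded_9f66d723.W6h79.LD.D4m
import Pool.Graph.R_pool_sql_team_seeded_9f66d723.W6h79.LD.X2
import Pool.Graph.R_seed8.Helper539.AuerDelta

/-!
# (CCC) The family `Good θ f` satisfies the countable chain condition
-/

set_option autoImplicit false

open MeasureTheory Set Filter
open scoped ENNReal NNReal Topology
open Pool.Agent.W6h79.LD Pool.Agent.H624.LD

noncomputable section

namespace Pool.Agent.H97.LD

namespace CCCx

universe u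

variable {A : Type u}

/-- functions of disjoint sets of coordinates are independent -/
theorem int_indep (J : Set A) (h k : (A → Bool) → ℝ) (hm : Measurable h) (km : Measurable k)
    (hd : ∀ x y : A → Bool, (∀ i, i ∉ J → x i = y i) → h x = h y)
    (kd : ∀ x y : A → Bool, (∀ i, i ∈ J → x i = y i) → k x = k y) :
    ∫ x, h x * k x ∂(coins A) = (∫ x, h x ∂(coins A)) * ∫ x, k x ∂(coins A) := by
  classical
  have hmp := sD4m A J
  have key : ∫ x, h x * k x ∂(coins A) =
      ∫ p, h (mrg J p.1 p.2) * k (mrg J p.1 p.2) ∂((coins A).prod (coins A)) := by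
    conv_lhs => rw [← hmp.map_eq]
    exact integral_map hmp.measurable.aemeasurable (hm.mul km).aestronglyMeasurable
  rw [key]
  have e : ∀ p : (A → Bool) × (A → Bool), h (mrg J p.1 p.2) * k (mrg J p.1 p.2) =
      h p.1 * k p.2 := by
    intro p
    rw [hd (mrg J p.1 p.2) p.1 (fun i hi => by simp [mrg, hi]),
      kd (mrg J p.1 p.2) p.2 (fun i hi => by simp [mrg, hi])]
  simp_rw [e]
  exact integral_prod_mul h k

theorem meas_cyl (F : Finset A) (s : A → Bool) : MeasurableSet (cyl F s) := X2x.meas_cyl F s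

/-- normalised indicator of a cylinder, minus one -/
def rho (K : Finset A) (s : A → Bool) (x : A → Bool) : ℝ :=
  2 ^ K.card * (cyl K s).indicator (fun _ => (1 : ℝ)) x - 1

theorem ind_meas (K : Finset A) (s : A → Bool) :
    Measurable (fun x => (cyl K s).indicator (fun _ => (1 : ℝ)) x) :=
  measurable_const.indicator (meas_cyl K s)

theorem rho_meas (K : Finset A) (s : A → Bool) : Measurable (rho K s) :=
  ((ind_meas K s).const_mul _).sub_const _

theorem ind_dep (K : Finset A) (s : A → Bool) (x y : A → Bool) (h : ∀ i ∈ K, x i = y i) :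
    (cyl K s).indicator (fun _ => (1 : ℝ)) x = (cyl K s).indicator (fun _ => (1 : ℝ)) y := by
  have : x ∈ cyl K s ↔ y ∈ cyl K s := by
    constructor
    · intro hx b hb; rw [← h b hb]; exact hx b hb
    · intro hy b hb; rw [h b hb]; exact hy b hb
  by_cases hx : x ∈ cyl K s
  · rw [indicator_of_mem hx, indicator_of_mem (this.1 hx)]
  · rw [indicator_of_notMem hx, indicator_of_notMem (fun h' => hx (this.2 h'))]

theorem rho_dep (K : Finset A) (s : A → Bool) (x y : A → Bool) (h : ∀ i ∈ K, x i = y i) :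
    rho K s x = rho K s y := by
  unfold rho; rw [ind_dep K s x y h]

theorem ind_int (K : Finset A) (s : A → Bool) :
    2 ^ K.card * ∫ x, (cyl K s).indicator (fun _ => (1 : ℝ)) x ∂(coins A) = 1 := by
  rw [integral_indicator (meas_cyl K s), setIntegral_const, smul_eq_mul, mul_one]
  have hreal : (coins A).real (cyl K s) = (2⁻¹ : ℝ) ^ K.card := by
    rw [Measure.real]
    have := X2x.cyl K s
    rw [show cyl K s = {y : A → Bool | ∀ b ∈ K, y b = s b} from rfl, this, ENNReal.toReal_pow,
      ENNReal.toReal_inv]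
    simp
  rw [hreal, ← mul_pow]
  norm_num

theorem rho_int (K : Finset A) (s : A → Bool) : ∫ x, rho K s x ∂(coins A) = 0 := by
  unfold rho
  rw [integral_sub, integral_const_mul, ind_int]
  · simp
  · exact ((integrable_const (1 : ℝ)).indicator (meas_cyl K s)).const_mul _
  · exact integrable_const _

theorem rho_bd (K : Finset A) (s : A → Bool) (x : A → Bool) : |rho K s x| ≤ 2 ^ K.card := by
  unfold rho
  have h1 : (1 : ℝ) ≤ 2 ^ K.card := one_le_pow₀ (by norm_num)
  by_cases hx : x ∈ cyl K s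
  · rw [indicator_of_mem hx, abs_le]; constructor <;> linarith
  · rw [indicator_of_notMem hx, abs_le]; constructor <;> linarith

theorem bint {g : (A → Bool) → ℝ} (hg : Measurable g) {C : ℝ} (hC : ∀ x, |g x| ≤ C) :
    Integrable g (coins A) :=
  Integrable.of_bound hg.aestronglyMeasurable C (ae_of_all _ hC)

theorem mul_bd {g h : (A → Bool) → ℝ} {C D : ℝ} (hg : ∀ x, |g x| ≤ C) (hh : ∀ x, |h x| ≤ D)
    (x : A → Bool) : |g x * h x| ≤ C * D := by
  rw [abs_mul]
  exact mul_le_mul (hg x) (hh x) (abs_nonneg _) ((abs_nonneg _).trans (hg x))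

theorem rho_orth (K K' : Finset A) (hK : Disjoint K K') (s s' : A → Bool) :
    ∫ x, rho K s x * rho K' s' x ∂(coins A) = 0 := by
  rw [int_indep (↑K' : Set A) (rho K s) (rho K' s') (rho_meas K s) (rho_meas K' s')
    (fun x y h => rho_dep K s x y fun i hi => h i fun hi' =>
      (Finset.disjoint_left.1 hK hi) hi')
    (fun x y h => rho_dep K' s' x y fun i hi => h i hi), rho_int, zero_mul]

theorem cyl_union [DecidableEq A] (F K : Finset A) (s : A → Bool) :
    cyl (F ∪ K) s = cyl F s ∩ cyl K s := by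
  ext x
  simp only [cyl, Set.mem_ofPred_eq, Finset.mem_union, Set.mem_inter_iff]
  constructor
  · intro h; exact ⟨fun b hb => h b (Or.inl hb), fun b hb => h b (Or.inr hb)⟩
  · rintro ⟨h1, h2⟩ b (hb | hb)
    · exact h1 b hb
    · exact h2 b hb

/-- the normalised function on a cylinder -/
def gg (f : (A → Bool) → ℝ) (F : Finset A) (s : A → Bool) (x : A → Bool) : ℝ :=
  2 ^ F.card * (f x * (cyl F s).indicator (fun _ => (1 : ℝ)) x)

theorem gg_int (f : (A → Bool) → ℝ) (F : Finset A) (s : A → Bool) :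
    ∫ x, gg f F s x ∂(coins A) = avg f F s := by
  unfold gg avg
  rw [integral_const_mul, ← integral_indicator (meas_cyl F s)]
  congr 1
  refine integral_congr_ae (ae_of_all _ fun x => ?_)
  by_cases hx : x ∈ cyl F s
  · simp [indicator_of_mem hx]
  · simp [indicator_of_notMem hx]

theorem gg_meas (f : (A → Bool) → ℝ) (hf : Measurable f) (F : Finset A) (s : A → Bool) :
    Measurable (gg f F s) := (hf.mul (ind_meas F s)).const_mul _

theorem gg_bd (f : (A → Bool) → ℝ) (M : ℝ) (hf : ∀ x, |f x| ≤ M) (F : Finset A) (s : A → Bool)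
    (x : A → Bool) : |gg f F s x| ≤ 2 ^ F.card * M := by
  unfold gg
  rw [abs_mul, abs_of_pos (by positivity : (0 : ℝ) < 2 ^ F.card)]
  refine mul_le_mul_of_nonneg_left ?_ (by positivity)
  by_cases hx : x ∈ cyl F s
  · rw [indicator_of_mem hx, mul_one]; exact hf x
  · rw [indicator_of_notMem hx, mul_zero, abs_zero]; exact (abs_nonneg _).trans (hf x)

theorem gg_union [DecidableEq A] (f : (A → Bool) → ℝ) (F K : Finset A) (hFK : Disjoint F K)
    (s : A → Bool) (x : A → Bool) :
    gg f (F ∪ K) s x = gg f F s x * (2 ^ K.card * (cyl K s).indicator (fun _ => (1 : ℝ)) x) := by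
  unfold gg
  rw [Finset.card_union_of_disjoint hFK, cyl_union, pow_add]
  have : (cyl F s ∩ cyl K s).indicator (fun _ => (1 : ℝ)) x =
      (cyl F s).indicator (fun _ => (1 : ℝ)) x * (cyl K s).indicator (fun _ => (1 : ℝ)) x := by
    by_cases h1 : x ∈ cyl F s <;> by_cases h2 : x ∈ cyl K s
    · rw [indicator_of_mem (Set.mem_inter h1 h2), indicator_of_mem h1,
        indicator_of_mem h2, one_mul]
    · rw [indicator_of_notMem (fun h => h2 h.2), indicator_of_notMem h2, mul_zero]
    · rw [indicator_of_notMem (fun h => h1 h.1), indicator_of_notMem h1, zero_mul]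
    · rw [indicator_of_notMem (fun h => h1 h.1), indicator_of_notMem h1, zero_mul]
  rw [this]; ring

theorem avg_union [DecidableEq A] (f : (A → Bool) → ℝ) (hf : Measurable f) (F K : Finset A)
    (hFK : Disjoint F K) (I : Set A) (hI : ∀ x y : A → Bool, (∀ i ∈ I, x i = y i) → f x = f y)
    (hK : ∀ i ∈ K, i ∉ I) (s : A → Bool) : avg f (F ∪ K) s = avg f F s := by
  rw [← gg_int, ← gg_int]
  simp_rw [gg_union f F K hFK s]
  rw [int_indep (↑K : Set A) (gg f F s)
    (fun x => 2 ^ K.card * (cyl K s).indicator (fun _ => (1 : ℝ)) x) (gg_meas f hf F s)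
    ((ind_meas K s).const_mul _) ?_ ?_, integral_const_mul, ind_int, mul_one]
  · intro x y h
    unfold gg
    rw [hI x y (fun i hi => h i fun hi' => hK i hi' hi),
      ind_dep F s x y (fun i hi => h i fun hi' => Finset.disjoint_left.1 hFK hi hi')]
  · intro x y h
    rw [ind_dep K s x y (fun i hi => h i hi)]

theorem avg_diff [DecidableEq A] (f : (A → Bool) → ℝ) (hf : Measurable f) (M : ℝ)
    (hM : ∀ x, |f x| ≤ M) (G K : Finset A)
    (hGK : Disjoint G K) (s : A → Bool) :
    avg f (G ∪ K) s - avg f G s = ∫ x, gg f G s x * rho K s x ∂(coins A) := by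
  rw [← gg_int, ← gg_int]
  simp_rw [gg_union f G K hGK s]
  rw [← integral_sub]
  · refine integral_congr_ae (ae_of_all _ fun x => ?_)
    simp only [rho]; ring
  · refine bint ((gg_meas f hf G s).mul ((ind_meas K s).const_mul _))
      (C := (2 ^ G.card * M) * (2 ^ K.card)) (mul_bd (gg_bd f M hM G s) fun x => ?_)
    by_cases hx : x ∈ cyl K s
    · rw [indicator_of_mem hx, mul_one, abs_of_pos (by positivity)]
    · rw [indicator_of_notMem hx, mul_zero, abs_zero]; positivity
  · exact bint (gg_meas f hf G s) (gg_bd f M hM G s)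

/-- Bessel's inequality for bounded functions -/
theorem bessel {ι : Type*} (T : Finset ι) (e : ι → (A → Bool) → ℝ) (he : ∀ i, Measurable (e i))
    (D : ℝ) (hD : 0 < D) (hb : ∀ i x, |e i x| ≤ D)
    (horth : ∀ i ∈ T, ∀ j ∈ T, i ≠ j → ∫ x, e i x * e j x ∂(coins A) = 0)
    (g : (A → Bool) → ℝ) (hg : Measurable g) (C : ℝ) (hC : ∀ x, |g x| ≤ C) :
    ∑ i ∈ T, (∫ x, g x * e i x ∂(coins A)) ^ 2 ≤ D ^ 2 * C ^ 2 := by
  classical
  set c : ι → ℝ := fun i => (∫ x, g x * e i x ∂(coins A)) / D ^ 2 with hc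
  have hD2 : 0 < D ^ 2 := by positivity
  have hcD : ∀ i, ∫ x, g x * e i x ∂(coins A) = c i * D ^ 2 := by
    intro i; rw [hc]; field_simp
  have hgi : ∀ i, Integrable (fun x => g x * e i x) (coins A) := fun i =>
    bint (hg.mul (he i)) (mul_bd hC (hb i))
  have hei : ∀ i j, Integrable (fun x => e i x * e j x) (coins A) := fun i j =>
    bint ((he i).mul (he j)) (mul_bd (hb i) (hb j))
  have hgg : Integrable (fun x => g x * g x) (coins A) := bint (hg.mul hg) (mul_bd hC hC)
  have h0 : 0 ≤ ∫ x, (g x - ∑ i ∈ T, c i * e i x) ^ 2 ∂(coins A) :=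
    integral_nonneg fun x => sq_nonneg _
  have hexp : ∀ x, (g x - ∑ i ∈ T, c i * e i x) ^ 2 = g x * g x -
      ∑ i ∈ T, (2 * c i) * (g x * e i x) + ∑ i ∈ T, ∑ j ∈ T, (c i * c j) * (e i x * e j x) := by
    intro x
    have h1 : ∑ i ∈ T, (2 * c i) * (g x * e i x) = 2 * g x * ∑ i ∈ T, c i * e i x := by
      rw [Finset.mul_sum]; exact Finset.sum_congr rfl fun i _ => by ring
    have h2 : ∑ i ∈ T, ∑ j ∈ T, (c i * c j) * (e i x * e j x) =
        (∑ i ∈ T, c i * e i x) * (∑ i ∈ T, c i * e i x) := by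
      rw [Finset.sum_mul_sum]
      exact Finset.sum_congr rfl fun i _ => Finset.sum_congr rfl fun j _ => by ring
    rw [h1, h2]; ring
  simp_rw [hexp] at h0
  rw [integral_add, integral_sub, integral_finsetSum, integral_finsetSum] at h0
  rotate_left
  · exact fun i _ => integrable_finsetSum _ fun j _ => (hei i j).const_mul _
  · exact fun i _ => (hgi i).const_mul _
  · exact hgg
  · exact integrable_finsetSum _ fun i _ => (hgi i).const_mul _
  · exact hgg.sub (integrable_finsetSum _ fun i _ => (hgi i).const_mul _)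
  · exact integrable_finsetSum _ fun i _ => integrable_finsetSum _ fun j _ =>
      (hei i j).const_mul _
  have h3 : ∑ i ∈ T, ∫ x, ∑ j ∈ T, (c i * c j) * (e i x * e j x) ∂(coins A) ≤
      ∑ i ∈ T, c i ^ 2 * D ^ 2 := by
    refine Finset.sum_le_sum fun i hi => ?_
    rw [integral_finsetSum _ (fun j _ => (hei i j).const_mul _)]
    rw [Finset.sum_eq_single_of_mem i hi]
    · rw [integral_const_mul]
      have h4 : ∫ x, e i x * e i x ∂(coins A) ≤ D ^ 2 := by
        have h5 : ∫ x, e i x * e i x ∂(coins A) ≤ ∫ _x, D ^ 2 ∂(coins A) := by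
          refine integral_mono (hei i i) (integrable_const _) fun x => ?_
          have := mul_bd (hb i) (hb i) x
          have h6 := le_abs_self (e i x * e i x)
          simp only
          nlinarith
        simpa using h5
      nlinarith [mul_self_nonneg (c i)]
    · intro j hj hji
      rw [integral_const_mul, horth i hi j hj (Ne.symm hji), mul_zero]
  have h7 : ∑ i ∈ T, ∫ x, (2 * c i) * (g x * e i x) ∂(coins A) =
      ∑ i ∈ T, 2 * (c i ^ 2 * D ^ 2) := by
    refine Finset.sum_congr rfl fun i _ => ?_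
    rw [integral_const_mul, hcD]; ring
  have h8 : ∫ x, g x * g x ∂(coins A) ≤ C ^ 2 := by
    have h5 : ∫ x, g x * g x ∂(coins A) ≤ ∫ _x, C ^ 2 ∂(coins A) := by
      refine integral_mono hgg (integrable_const _) fun x => ?_
      have := mul_bd hC hC x
      have h6 := le_abs_self (g x * g x)
      simp only
      nlinarith
    simpa using h5
  rw [h7, ← Finset.mul_sum] at h0
  have h9 : ∑ i ∈ T, c i ^ 2 * D ^ 2 ≤ C ^ 2 := by linarith
  calc ∑ i ∈ T, (∫ x, g x * e i x ∂(coins A)) ^ 2 = D ^ 2 * ∑ i ∈ T, c i ^ 2 * D ^ 2 := by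
        rw [Finset.mul_sum]
        exact Finset.sum_congr rfl fun i _ => by rw [hcD]; ring
    _ ≤ D ^ 2 * C ^ 2 := mul_le_mul_of_nonneg_left h9 hD2.le

/-- the value at `a` -/
def vl (f : (A → Bool) → ℝ) (F : Finset A) (a : A) (s : A → Bool) : ℝ :=
  sgn (s a) * ((avg f F s - avg f F (fun b => !s b)) / 2)

theorem abs_sgn (b : Bool) : |sgn b| = 1 := by unfold sgn; split_ifs <;> simp

theorem avg_congr (f : (A → Bool) → ℝ) (F : Finset A) (s t : A → Bool)
    (h : ∀ b ∈ F, s b = t b) : avg f F s = avg f F t := by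
  have : cyl F s = cyl F t := by
    ext x
    simp only [cyl, Set.mem_ofPred_eq]
    exact ⟨fun hx b hb => (hx b hb).trans (h b hb), fun hx b hb => (hx b hb).trans (h b hb).symm⟩
  unfold avg; rw [this]

/-- the pattern of a subset -/
def pat [DecidableEq A] (U : Finset A) : A → Bool := fun b => decide (b ∈ U)

theorem cyl_pat [DecidableEq A] (G : Finset A) (s : A → Bool) :
    cyl G s = cyl G (pat (G.filter fun b => s b = true)) := by
  ext x
  simp only [cyl, Set.mem_ofPred_eq, pat]
  refine forall₂_congr fun b hb => ?_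
  have : s b = decide (b ∈ G.filter fun b => s b = true) := by
    cases h : s b <;> simp [h, hb]
  rw [← this]

/-- values of a good set are bounded away from `θ` -/
theorem slack [DecidableEq A] (f : A → (A → Bool) → ℝ) (θ : ℝ) (F : Finset A)
    (hF : F ∈ Good θ f) : ∃ j : ℕ, ∀ s : A → Bool, ∀ a ∈ F,
      θ + 1 / ((j : ℝ) + 1) ≤ vl (f a) F a s := by
  have h1 : ∀ q ∈ F.powerset ×ˢ F, ∃ j : ℕ, θ + 1 / ((j : ℝ) + 1) ≤
      vl (f q.2) F q.2 (pat q.1) := by
    intro q hq
    have h2 : θ < vl (f q.2) F q.2 (pat q.1) := hF _ _ (Finset.mem_product.1 hq).2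
    obtain ⟨j, hj⟩ := exists_nat_one_div_lt (sub_pos.2 h2)
    exact ⟨j, by linarith⟩
  choose! j hj using h1
  refine ⟨(F.powerset ×ˢ F).sup j, fun s a ha => ?_⟩
  set U := F.filter fun b => s b = true with hU
  have hq : (U, a) ∈ F.powerset ×ˢ F :=
    Finset.mem_product.2 ⟨Finset.mem_powerset.2 (Finset.filter_subset _ _), ha⟩
  have h3 := hj (U, a) hq
  have hsU : ∀ b ∈ F, pat U b = s b := by
    intro b hb
    simp only [pat, hU, Finset.mem_filter, hb, true_and]
    cases s b <;> simp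
  have h4 : vl (f a) F a (pat U) = vl (f a) F a s := by
    unfold vl
    rw [hsU a ha, avg_congr (f a) F (pat U) s hsU,
      avg_congr (f a) F (fun b => !pat U b) (fun b => !s b) fun b hb => by rw [hsU b hb]]
  rw [← h4]
  refine le_trans ?_ h3
  have h5 : j (U, a) ≤ (F.powerset ×ˢ F).sup j := Finset.le_sup hq
  have h6 : (1 : ℝ) / (((F.powerset ×ˢ F).sup j : ℕ) + 1) ≤ 1 / ((j (U, a) : ℝ) + 1) := by
    refine one_div_le_one_div_of_le (by positivity) ?_
    have : (j (U, a) : ℝ) ≤ ((F.powerset ×ˢ F).sup j : ℕ) := by exact_mod_cast h5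
    linarith
  linarith

theorem ccc_aux [DecidableEq A] (f : A → (A → Bool) → ℝ) (I : A → Set A) (θ M : ℝ)
    (hfm : ∀ a, Measurable (f a)) (hM : ∀ a x, |f a x| ≤ M) (hI : ∀ a, (I a).Countable)
    (hdep : ∀ a, ∀ x y : A → Bool, (∀ i ∈ I a, x i = y i) → f a x = f a y)
    (S : Set (Finset A)) (hS : S ⊆ Good θ f) (hSc : ¬ S.Countable) :
    ∃ F ∈ S, ∃ G ∈ S, F ≠ G ∧ F ∪ G ∈ Good θ f := by
  -- uniform slack
  choose! j hj using fun F (hF : F ∈ S) => slack f θ F (hS hF)
  obtain ⟨k, -, hk⟩ := Pool.Agent.Helper539.Auer.pigeonhole hSc j (countable_univ (α := ℕ))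
    (fun _ _ => mem_univ _)
  set σ : ℝ := 1 / ((k : ℝ) + 1) with hσ
  have hσ0 : 0 < σ := by rw [hσ]; positivity
  obtain ⟨R, n, S₁, hS₁, hn, hS₁c, hR, hdisj⟩ :=
    Pool.Agent.Helper539.Auer.delta_refined _ hk ∅ countable_empty
  have hS₁S : ∀ F ∈ S₁, F ∈ S := fun F hF => (hS₁ hF).1
  have hval : ∀ F ∈ S₁, ∀ s : A → Bool, ∀ a ∈ F, θ + σ ≤ vl (f a) F a s := by
    intro F hF s a ha
    have h1 := hS₁ hF
    have h2 := hj F h1.1 s a ha
    rw [h1.2] at h2
    exact h2
  set N : ℕ := n + R.card with hN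
  have hcard : ∀ F ∈ S₁, F.card = N := by
    intro F hF
    rw [hN, ← (hR F hF).2.1]
    have := Finset.card_sdiff_add_card_eq_card (hR F hF).1
    omega
  -- many members
  obtain ⟨m, hm⟩ := exists_nat_gt
    ((N : ℝ) * 2 ^ N * (((2 : ℝ) ^ n) ^ 2 * (2 ^ N * M) ^ 2) / σ ^ 2)
  have hinf : S₁.Infinite := fun h => hS₁c h.countable
  obtain ⟨T, hTS, hTm⟩ := hinf.exists_subset_card_eq m
  -- the last member
  set D : Set A := ⋃ F ∈ T, ⋃ a ∈ F, I a with hD
  have hDc : D.Countable :=
    T.countable_toSet.biUnion fun F _ => F.countable_toSet.biUnion fun a _ => hI a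
  have hbad : {G | G ∈ S₁ ∧ ∃ w ∈ G \ R, w ∈ D}.Countable := by
    have hsub : {G | G ∈ S₁ ∧ ∃ w ∈ G \ R, w ∈ D} ⊆ ⋃ w ∈ D, {G | G ∈ S₁ ∧ w ∈ G \ R} := by
      rintro G ⟨hG, w, hw, hwD⟩
      simp only [mem_iUnion, exists_prop]
      exact ⟨w, hwD, hG, hw⟩
    refine (hDc.biUnion (fun w _ => ?_)).mono hsub
    apply Set.Subsingleton.countable
    rintro F ⟨hF, hwF⟩ G ⟨hG, hwG⟩
    by_contra hne
    exact (Finset.disjoint_left.mp (hdisj F hF G hG hne)) hwF hwG
  obtain ⟨G, hGS, hGT, hGD⟩ : ∃ G ∈ S₁, G ∉ T ∧ ∀ w ∈ G \ R, w ∉ D := by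
    by_contra hcon
    push Not at hcon
    apply hS₁c
    refine (hbad.union T.countable_toSet).mono ?_
    intro G hG
    by_cases hGT : G ∈ T
    · exact Or.inr hGT
    · exact Or.inl ⟨hG, hcon G hG hGT⟩
  by_contra hno
  push Not at hno
  -- the differences
  have key : ∀ F ∈ T, ∃ a ∈ G, ∃ s : A → Bool,
      σ ^ 2 ≤ (∫ x, gg (f a) G s x * rho (F \ R) s x ∂(coins A)) ^ 2 := by
    intro F hFT
    have hFS : F ∈ S₁ := hTS hFT
    have hFG : F ≠ G := fun h => hGT (h ▸ hFT)
    have hnot := hno F (hS₁S F hFS) G (hS₁S G hGS) hFG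
    have hd := hdisj F hFS G hGS hFG
    have hRF := (hR F hFS).1
    have hRG := (hR G hGS).1
    have hKG : Disjoint G (F \ R) := by
      rw [Finset.disjoint_left] at hd ⊢
      intro x hxG hxF
      exact hd hxF (Finset.mem_sdiff.2 ⟨hxG, (Finset.mem_sdiff.1 hxF).2⟩)
    have hFK : Disjoint F (G \ R) := by
      rw [Finset.disjoint_left] at hd ⊢
      intro x hxF hxG
      exact hd (Finset.mem_sdiff.2 ⟨hxF, (Finset.mem_sdiff.1 hxG).2⟩) hxG
    have hu1 : F ∪ G = F ∪ (G \ R) := by
      ext x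
      simp only [Finset.mem_union, Finset.mem_sdiff]
      constructor
      · rintro (h | h)
        · exact Or.inl h
        · by_cases hx : x ∈ R
          · exact Or.inl (hRF hx)
          · exact Or.inr ⟨h, hx⟩
      · rintro (h | h)
        · exact Or.inl h
        · exact Or.inr h.1
    have hu2 : F ∪ G = G ∪ (F \ R) := by
      ext x
      simp only [Finset.mem_union, Finset.mem_sdiff]
      constructor
      · rintro (h | h)
        · by_cases hx : x ∈ R
          · exact Or.inl (hRG hx)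
          · exact Or.inr ⟨h, hx⟩
        · exact Or.inl h
      · rintro (h | h)
        · exact Or.inr h
        · exact Or.inl h.1
    have hnot' : ∃ s : A → Bool, ∃ a ∈ F ∪ G, vl (f a) (F ∪ G) a s ≤ θ := by
      by_contra hcon
      push Not at hcon
      exact hnot fun s a ha => hcon s a ha
    obtain ⟨s, a, ha, hle⟩ := hnot'
    have haF : a ∉ F := by
      intro haF
      have h1 : ∀ t : A → Bool, avg (f a) (F ∪ G) t = avg (f a) F t := by
        intro t
        rw [hu1]
        refine avg_union (f a) (hfm a) F (G \ R) hFK (I a) (hdep a) (fun i hi hiI => ?_) t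
        refine hGD i hi ?_
        rw [hD]
        simp only [mem_iUnion, exists_prop]
        exact ⟨F, hFT, a, haF, hiI⟩
      have h2 : vl (f a) (F ∪ G) a s = vl (f a) F a s := by
        unfold vl; rw [h1, h1]
      have h3 := hval F hFS s a haF
      rw [h2] at hle
      linarith
    have haG : a ∈ G := (Finset.mem_union.1 ha).resolve_left haF
    refine ⟨a, haG, ?_⟩
    by_contra hcon
    push Not at hcon
    have hsm : ∀ t : A → Bool, |avg (f a) (F ∪ G) t - avg (f a) G t| < σ := by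
      intro t
      rw [hu2, avg_diff (f a) (hfm a) M (hM a) G (F \ R) hKG t]
      exact abs_lt_of_sq_lt_sq (hcon t) hσ0.le
    have h1 := hsm s
    have h2 := hsm (fun b => !s b)
    have h3 := hval G hGS s a haG
    have h4 : |vl (f a) (F ∪ G) a s - vl (f a) G a s| < σ := by
      have e : vl (f a) (F ∪ G) a s - vl (f a) G a s = sgn (s a) *
          (((avg (f a) (F ∪ G) s - avg (f a) G s) -
            (avg (f a) (F ∪ G) (fun b => !s b) - avg (f a) G (fun b => !s b))) / 2) := by
        unfold vl; ring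
      rw [e, abs_mul, abs_sgn, one_mul, abs_div, abs_of_pos (by norm_num : (0 : ℝ) < 2)]
      have h5 := abs_sub (avg (f a) (F ∪ G) s - avg (f a) G s)
        (avg (f a) (F ∪ G) (fun b => !s b) - avg (f a) G (fun b => !s b))
      linarith
    have h5 := abs_lt.1 h4
    linarith
  have hne : Nonempty A := by
    obtain ⟨x, -⟩ : (G \ R).Nonempty := by
      rw [← Finset.card_pos, (hR G hGS).2.1]; exact hn
    exact ⟨x⟩
  choose! a ha s hs using key
  -- summation
  have hGc : G.card = N := hcard G hGS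
  have hpow : ∀ F ∈ S₁, (F \ R).card = n := fun F hF => (hR F hF).2.1
  have hB : ∀ q : A × Finset A, ∑ F ∈ T, (∫ x, gg (f q.1) G (pat q.2) x *
      rho (F \ R) (s F) x ∂(coins A)) ^ 2 ≤ ((2 : ℝ) ^ n) ^ 2 * (2 ^ N * M) ^ 2 := by
    intro q
    rw [← Finset.sum_attach]
    have h1 := bessel (T.attach) (fun F : {x // x ∈ T} => rho ((F : Finset A) \ R) (s F))
      (fun F => rho_meas _ _) ((2 : ℝ) ^ n) (by positivity)
      (fun F x => by
        have := rho_bd ((F : Finset A) \ R) (s F) x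
        rwa [hpow F (hTS F.2)] at this)
      (fun F _ F' _ hne => rho_orth _ _ (hdisj F (hTS F.2) F' (hTS F'.2)
        fun h => hne (Subtype.ext h)) _ _)
      (gg (f q.1) G (pat q.2)) (gg_meas _ (hfm q.1) _ _) (2 ^ N * M) (fun x => by
        have := gg_bd (f q.1) M (hM q.1) G (pat q.2) x
        rwa [hGc] at this)
    exact h1
  have hlow : (m : ℝ) * σ ^ 2 ≤ ∑ F ∈ T, ∑ q ∈ G ×ˢ G.powerset,
      (∫ x, gg (f q.1) G (pat q.2) x * rho (F \ R) (s F) x ∂(coins A)) ^ 2 := by
    rw [← hTm, ← nsmul_eq_mul]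
    refine Finset.card_nsmul_le_sum T _ _ fun F hF => ?_
    have hq : (a F, G.filter fun b => s F b = true) ∈ G ×ˢ G.powerset :=
      Finset.mem_product.2 ⟨ha F hF, Finset.mem_powerset.2 (Finset.filter_subset _ _)⟩
    have h1 := Finset.single_le_sum (f := fun q : A × Finset A =>
      (∫ x, gg (f q.1) G (pat q.2) x * rho (F \ R) (s F) x ∂(coins A)) ^ 2)
      (fun q _ => sq_nonneg _) hq
    refine le_trans ?_ h1
    have h2 : ∀ x, gg (f (a F)) G (pat (G.filter fun b => s F b = true)) x =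
        gg (f (a F)) G (s F) x := by
      intro x; unfold gg; rw [← cyl_pat]
    simp only [h2]
    exact hs F hF
  rw [Finset.sum_comm] at hlow
  have hup : ∑ q ∈ G ×ˢ G.powerset, ∑ F ∈ T,
      (∫ x, gg (f q.1) G (pat q.2) x * rho (F \ R) (s F) x ∂(coins A)) ^ 2 ≤
      (N : ℝ) * 2 ^ N * (((2 : ℝ) ^ n) ^ 2 * (2 ^ N * M) ^ 2) := by
    refine (Finset.sum_le_card_nsmul _ _ _ fun q _ => hB q).trans ?_
    rw [nsmul_eq_mul, Finset.card_product, Finset.card_powerset, hGc]
    push_cast
    exact le_rfl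
  have h1 := hlow.trans hup
  rw [div_lt_iff₀ (by positivity)] at hm
  linarith

end CCCx

open Classical in
theorem sCCC.{u} : S_CCC.{u} := by
  intro A f I θ M hfm hM hI hdep S hS hSc
  exact CCCx.ccc_aux f I θ M hfm hM hI hdep S hS hSc

end Pool.Agent.H97.LD
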